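import Mathlib

set_option autoImplicit false

/-!
Relaxation time of simple random walk on a connected graph with `m` edges.

Double every edge and walk around the graph along each edge once in each direction: a closed walk
of length `2m`.  Along the walk the function `f` becomes a function on the cycle of length `2m`, to
which a discrete Wirtinger inequality applies.
-/

namespace Pool.Agent.W132.Relax

open Finset SimpleGraph

section walk

variable {V : Type*} [Fintype V] [DecidableEq V] (G : SimpleGraph V) [DecidableRel G.Adj]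

/-- a closed walk with distinct darts which with every dart contains its reverse -/
def Good {r : V} (p : G.Walk r r) : Prop :=
  p.darts.Nodup ∧ ∀ d ∈ p.darts, d.symm ∈ p.darts

omit [Fintype V] [DecidableRel G.Adj] in
lemma extend {r : V} (p : G.Walk r r) (hp : Good G p) (d : G.Dart) (hd : d ∉ p.darts)
    (hf : d.fst ∈ p.support) : ∃ q : G.Walk r r, Good G q ∧ q.length = p.length + 2 := by
  classical
  have hspec := p.take_spec hf
  set a := p.takeUntil d.fst hf with ha
  set b := p.dropUntil d.fst hf with hb
  have hds : d.symm ∉ p.darts := by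
    intro h
    have := hp.2 _ h
    rw [Dart.symm_symm] at this
    exact hd this
  let c : G.Walk d.fst d.fst := Walk.cons d.adj (Walk.cons d.symm.adj Walk.nil)
  have hc : c.darts = [d, d.symm] := by
    simp only [c, Walk.darts_cons, Walk.darts_nil]
    rfl
  refine ⟨a.append (c.append b), ?_, ?_⟩
  · have hdarts : (a.append (c.append b)).darts = a.darts ++ ([d, d.symm] ++ b.darts) := by
      rw [Walk.darts_append, Walk.darts_append, hc]
    have hp' : p.darts = a.darts ++ b.darts := by
      rw [← hspec, Walk.darts_append]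
    have hperm : (a.append (c.append b)).darts.Perm ([d, d.symm] ++ p.darts) := by
      rw [hdarts, hp', ← List.append_assoc, ← List.append_assoc]
      exact List.Perm.append_right _ List.perm_append_comm
    constructor
    · rw [hperm.nodup_iff]
      have hne : d ≠ d.symm := by
        intro h
        have h1 : d.fst = d.symm.fst := congrArg (fun x => x.fst) h
        exact d.adj.ne h1
      simp only [List.cons_append, List.nil_append, List.nodup_cons, List.mem_cons, not_or]
      exact ⟨⟨hne, hd⟩, hds, hp.1⟩
    · intro x hx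
      rw [hperm.mem_iff] at hx ⊢
      simp only [List.cons_append, List.nil_append, List.mem_cons] at hx ⊢
      rcases hx with rfl | rfl | hx
      · right; left; rfl
      · left; rw [Dart.symm_symm]
      · right; right; exact hp.2 _ hx
  · have h1 : p.length = a.length + b.length := by rw [← hspec, Walk.length_append]
    have h2 : c.length = 2 := rfl
    rw [Walk.length_append, Walk.length_append, h1, h2]
    ring

lemma exists_tour (hG : G.Connected) (r : V) :
    ∃ p : G.Walk r r, p.darts.Nodup ∧ ∀ d : G.Dart, d ∈ p.darts := by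
  classical
  have hbound : ∀ p : G.Walk r r, Good G p → p.length ≤ Fintype.card G.Dart := by
    intro p hp
    rw [← Walk.length_darts]
    exact hp.1.length_le_card
  have hex : ∃ n, ∃ p : G.Walk r r, Good G p ∧ p.length = n :=
    ⟨0, Walk.nil, ⟨by simp, by simp⟩, rfl⟩
  obtain ⟨p, hp, hmax⟩ : ∃ p : G.Walk r r, Good G p ∧ ∀ q : G.Walk r r, Good G q →
      q.length ≤ p.length := by
    by_contra hcon
    push Not at hcon
    have key : ∀ k : ℕ, ∃ p : G.Walk r r, Good G p ∧ k ≤ p.length := by
      intro k
      induction k with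
      | zero => exact ⟨Walk.nil, ⟨by simp, by simp⟩, Nat.zero_le _⟩
      | succ k ih =>
        obtain ⟨p, hp, hk⟩ := ih
        obtain ⟨q, hq, hlt⟩ := hcon p hp
        exact ⟨q, hq, by omega⟩
    obtain ⟨p, hp, hk⟩ := key (Fintype.card G.Dart + 1)
    have := hbound p hp
    omega
  refine ⟨p, hp.1, ?_⟩
  have hstep : ∀ d : G.Dart, d.fst ∈ p.support → d ∈ p.darts := by
    intro d hd
    by_contra hcon
    obtain ⟨q, hq, hl⟩ := extend G p hp d hcon hd
    have := hmax q hq
    omega
  have hall : ∀ v : V, v ∈ p.support := by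
    intro v
    obtain ⟨w⟩ := hG.preconnected r v
    have : ∀ (u v : V) (w : G.Walk u v), u ∈ p.support → v ∈ p.support := by
      intro u v w
      induction w with
      | nil => exact id
      | cons h w ih =>
        intro hu
        apply ih
        have := hstep ⟨(_, _), h⟩ hu
        exact p.dart_snd_mem_support_of_mem_darts this
    exact this r v w p.start_mem_support
  exact fun d => hstep d (hall _)

omit [Fintype V] [DecidableEq V] [DecidableRel G.Adj] in
lemma sum_darts_walk {u v : V} (p : G.Walk u v) (φ : V → V → ℝ) :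
    (p.darts.map (fun d => φ d.fst d.snd)).sum =
      ∑ j ∈ range p.length, φ (p.getVert j) (p.getVert (j + 1)) := by
  induction p with
  | nil => simp
  | cons h p ih =>
    rw [Walk.darts_cons, List.map_cons, List.sum_cons, ih, Walk.length_cons, sum_range_succ']
    simp only [Walk.getVert_cons_succ, Walk.getVert_zero]
    rw [add_comm]

lemma sum_darts_tour {r : V} (p : G.Walk r r) (h1 : p.darts.Nodup) (h2 : ∀ d : G.Dart, d ∈ p.darts)
    (φ : V → V → ℝ) :
    ∑ d : G.Dart, φ d.fst d.snd = ∑ j ∈ range p.length, φ (p.getVert j) (p.getVert (j + 1)) := by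
  rw [← sum_darts_walk, ← List.sum_toFinset _ h1]
  have : p.darts.toFinset = univ := by
    ext d
    simp [h2 d]
  rw [this]

lemma length_tour {r : V} (p : G.Walk r r) (h1 : p.darts.Nodup) (h2 : ∀ d : G.Dart, d ∈ p.darts) :
    p.length = 2 * G.edgeFinset.card := by
  rw [← dart_card_eq_twice_card_edges, ← Walk.length_darts, ← List.toFinset_card_of_nodup h1]
  have : p.darts.toFinset = univ := by
    ext d
    simp [h2 d]
  rw [this, Finset.card_univ]

lemma sum_darts_adj (φ : V → V → ℝ) :
    ∑ d : G.Dart, φ d.fst d.snd = ∑ u, ∑ v, if G.Adj u v then φ u v else 0 := by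
  rw [← Fintype.sum_prod_type']
  rw [← Finset.sum_filter]
  symm
  refine Finset.sum_bij' (fun x hx => (⟨x, (mem_filter.1 hx).2⟩ : G.Dart)) (fun d _ => d.toProd)
    ?_ ?_ ?_ ?_ ?_
  · intro a ha; exact mem_univ _
  · intro d _; exact mem_filter.2 ⟨mem_univ _, d.adj⟩
  · intro a ha; rfl
  · intro d _; rfl
  · intro a ha; rfl

lemma sum_darts_deg (g : V → ℝ) :
    ∑ d : G.Dart, g d.fst = ∑ v, (G.degree v : ℝ) * g v := by
  rw [sum_darts_adj G (fun u _ => g u)]
  refine Finset.sum_congr rfl fun u _ => ?_
  rw [← Finset.sum_filter, Finset.sum_const, nsmul_eq_mul]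
  congr 2
  rw [← G.card_neighborFinset_eq_degree u]
  congr 1
  ext v
  simp

end walk

section path

/-- discrete Wirtinger inequality on an interval, with both ends clamped -/
lemma path_ineq (m : ℕ) (hm : 1 ≤ m) (h : ℕ → ℝ) :
    2 * (1 - Real.cos (Real.pi / (m + 1))) * ∑ j ∈ range m, h j ^ 2 ≤
      h 0 ^ 2 + ∑ j ∈ range (m - 1), (h (j + 1) - h j) ^ 2 + h (m - 1) ^ 2 := by
  set x : ℝ := Real.pi / (m + 1) with hx
  set s : ℕ → ℝ := fun j => Real.sin ((j + 1) * x) with hs
  have hm1 : (0 : ℝ) < m + 1 := by positivity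
  have hxpos : 0 < x := div_pos Real.pi_pos hm1
  have hspos : ∀ j : ℕ, j < m → 0 < s j := by
    intro j hj
    apply Real.sin_pos_of_pos_of_lt_pi
    · positivity
    · rw [hx, mul_div_assoc', div_lt_iff₀ hm1, mul_comm]
      have : ((j : ℝ) + 1) < m + 1 := by
        have : (j : ℝ) < m := by exact_mod_cast hj
        linarith
      exact mul_lt_mul_of_pos_left this Real.pi_pos
  have hrec : ∀ j : ℕ, s (j + 1 + 1) + s j = 2 * Real.cos x * s (j + 1) := by
    intro j
    simp only [hs]
    push_cast
    have e1 : ((j : ℝ) + 1 + 1 + 1) * x = ((j : ℝ) + 1 + 1) * x + x := by ring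
    have e2 : ((j : ℝ) + 1) * x = ((j : ℝ) + 1 + 1) * x - x := by ring
    rw [e1, e2, Real.sin_add, Real.sin_sub]
    ring
  have h0 : s 1 = 2 * Real.cos x * s 0 := by
    simp only [hs]
    push_cast
    have e1 : ((1 : ℝ) + 1) * x = 2 * x := by ring
    rw [e1, Real.sin_two_mul]
    simp only [zero_add, one_mul]
    ring
  have hend : s m = 0 := by
    simp only [hs]
    rw [hx, mul_div_cancel₀ _ hm1.ne', Real.sin_pi]
  have key : ∀ k : ℕ, k < m →
      2 * (1 - Real.cos x) * ∑ j ∈ range (k + 1), h j ^ 2 + (s (k + 1) / s k - 1) * h k ^ 2 ≤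
        h 0 ^ 2 + ∑ j ∈ range k, (h (j + 1) - h j) ^ 2 := by
    intro k
    induction k with
    | zero =>
      intro _
      have hs0 : s 0 ≠ 0 := (hspos 0 (by omega)).ne'
      rw [zero_add, h0, mul_div_cancel_right₀ _ hs0]
      simp only [range_one, sum_singleton, range_zero, sum_empty]
      apply le_of_eq
      ring
    | succ k ih =>
      intro hk
      have ih := ih (by omega)
      have p0 := hspos k (by omega)
      have p1 := hspos (k + 1) hk
      rw [sum_range_succ (fun j => h j ^ 2) (k + 1), sum_range_succ (fun j => (h (j + 1) - h j) ^ 2) k]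
      have hr : s (k + 1 + 1) / s (k + 1) = 2 * Real.cos x - s k / s (k + 1) := by
        rw [eq_sub_iff_add_eq, ← add_div, hrec, mul_div_cancel_right₀ _ p1.ne']
      have hsq : 0 ≤ s (k + 1) / s k * h k ^ 2 - 2 * h k * h (k + 1) +
          s k / s (k + 1) * h (k + 1) ^ 2 := by
        have : s (k + 1) / s k * h k ^ 2 - 2 * h k * h (k + 1) + s k / s (k + 1) * h (k + 1) ^ 2 =
            (s (k + 1) * h k - s k * h (k + 1)) ^ 2 / (s k * s (k + 1)) := by
          field_simp
          ring
        rw [this]
        positivity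
      rw [hr]
      nlinarith
  have hk := key (m - 1) (by omega)
  have e : m - 1 + 1 = m := by omega
  rw [e, hend, zero_div] at hk
  linarith

/-- Wirtinger inequality on the cycle of length `2m` with a free additive constant. -/
lemma cycle_ineq (m : ℕ) (hm : 1 ≤ m) (g : ℕ → ℝ) (hg : ∀ j, g (j + 2 * m) = g j) :
    ∃ c : ℝ, 2 * (1 - Real.cos (Real.pi / (m + 1))) * ∑ j ∈ range (2 * m), (g j - c) ^ 2 ≤
      ∑ j ∈ range (2 * m), (g (j + 1) - g j) ^ 2 := by
  -- a place where the function crosses its antipode
  obtain ⟨i, hi⟩ : ∃ i : ℕ, (g (i + m) - g i) * (g (i + 1 + m) - g (i + 1)) ≤ 0 := by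
    by_contra hcon
    push Not at hcon
    have hall : ∀ i, 0 < (g m - g 0) * (g (i + m) - g i) := by
      intro i
      induction i with
      | zero =>
        have := hcon 0
        rw [zero_add]
        have h1 : g m - g 0 ≠ 0 := by
          intro h
          rw [zero_add, h, zero_mul] at this
          exact lt_irrefl _ this
        exact mul_self_pos.2 h1
      | succ i ih =>
        have := hcon i
        have h2 : 0 < ((g m - g 0) * (g (i + m) - g i)) *
          ((g (i + m) - g i) * (g (i + 1 + m) - g (i + 1))) := mul_pos ih this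
        have h3 : g (i + m) - g i ≠ 0 := by
          intro h; rw [h, mul_zero] at ih; exact lt_irrefl _ ih
        have h4 : 0 < (g (i + m) - g i) ^ 2 := by positivity
        have h5 : ((g m - g 0) * (g (i + m) - g i)) *
          ((g (i + m) - g i) * (g (i + 1 + m) - g (i + 1))) =
          (g (i + m) - g i) ^ 2 * ((g m - g 0) * (g (i + 1 + m) - g (i + 1))) := by ring
        rw [h5] at h2
        exact (mul_pos_iff_of_pos_left h4).1 h2
    have h1 := hall m
    have h2 := hall 0
    have h3 : g (m + m) = g 0 := by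
      have := hg 0
      rw [zero_add] at this
      rw [← two_mul, this]
    rw [h3] at h1
    rw [zero_add] at h2
    nlinarith
  -- the constant
  obtain ⟨c, hc1, hc2⟩ : ∃ c : ℝ, (g i - c) * (g (i + 1) - c) ≤ 0 ∧
      (g (i + m) - c) * (g (i + 1 + m) - c) ≤ 0 := by
    set A := g (i + m) - g i with hA
    set B := g (i + 1 + m) - g (i + 1) with hB
    by_cases hAB : A - B = 0
    · have hA0 : A = 0 := by nlinarith [sq_nonneg A, mul_self_nonneg A]
      have hB0 : B = 0 := by linarith
      refine ⟨g i, by simp, ?_⟩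
      have : g (i + m) - g i = 0 := hA0
      rw [this, zero_mul]
    · set θ := A / (A - B) with hθ
      have h1 : 0 ≤ θ := by
        rw [hθ, div_eq_mul_inv]
        have : A / (A - B) = (A * (A - B)) / (A - B) ^ 2 := by field_simp
        rw [← div_eq_mul_inv, this]
        apply div_nonneg _ (by positivity)
        nlinarith [mul_self_nonneg A]
      have h2 : 0 ≤ 1 - θ := by
        have : 1 - θ = (B * (B - A)) / (A - B) ^ 2 := by
          rw [hθ]; field_simp; ring
        rw [this]
        apply div_nonneg _ (by positivity)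
        nlinarith [mul_self_nonneg B]
      have h3 : θ * (A - B) = A := by rw [hθ]; field_simp
      refine ⟨(1 - θ) * g i + θ * g (i + 1), ?_, ?_⟩
      · have : (g i - ((1 - θ) * g i + θ * g (i + 1))) * (g (i + 1) - ((1 - θ) * g i + θ * g (i + 1)))
            = -(θ * (1 - θ) * (g i - g (i + 1)) ^ 2) := by ring
        rw [this]
        have := mul_nonneg h1 h2
        have := mul_nonneg this (sq_nonneg (g i - g (i + 1)))
        linarith
      · have e : (1 - θ) * g i + θ * g (i + 1) = (1 - θ) * g (i + m) + θ * g (i + 1 + m) := by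
          have e1 : g (i + m) = A + g i := by rw [hA]; ring
          have e2 : g (i + 1 + m) = B + g (i + 1) := by rw [hB]; ring
          rw [e1, e2]
          linear_combination h3
        rw [e]
        have : (g (i + m) - ((1 - θ) * g (i + m) + θ * g (i + 1 + m))) *
            (g (i + 1 + m) - ((1 - θ) * g (i + m) + θ * g (i + 1 + m)))
            = -(θ * (1 - θ) * (g (i + m) - g (i + 1 + m)) ^ 2) := by ring
        rw [this]
        have := mul_nonneg h1 h2
        have := mul_nonneg this (sq_nonneg (g (i + m) - g (i + 1 + m)))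
        linarith
  refine ⟨c, ?_⟩
  -- shift invariance of sums over a period
  have hshift : ∀ (F : ℕ → ℝ), (∀ j, F (j + 2 * m) = F j) → ∀ k : ℕ,
      ∑ j ∈ range (2 * m), F (j + k) = ∑ j ∈ range (2 * m), F j := by
    intro F hF k
    induction k with
    | zero => rfl
    | succ k ih =>
      rw [← ih]
      have h1 := sum_range_succ (fun j => F (j + k)) (2 * m)
      have h2 := sum_range_succ' (fun j => F (j + k)) (2 * m)
      have h3 : F (2 * m + k) = F (0 + k) := by
        rw [zero_add, add_comm]; exact hF k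
      have h4 : ∑ j ∈ range (2 * m), F (j + 1 + k) = ∑ j ∈ range (2 * m), F (j + (k + 1)) := by
        refine sum_congr rfl fun j _ => ?_
        congr 1; ring
      rw [h4] at h2
      linarith
  have hL := hshift (fun j => (g j - c) ^ 2) (fun j => by simp only [hg]) (i + 1)
  have hR := hshift (fun j => (g (j + 1) - g j) ^ 2) (fun j => by
    have : j + 2 * m + 1 = j + 1 + 2 * m := by ring
    simp only [this, hg]) (i + 1)
  rw [← hL, ← hR]
  have hp1 := path_ineq m hm (fun j => g (j + (i + 1)) - c)
  have hp2 := path_ineq m hm (fun j => g (j + m + (i + 1)) - c)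
  have hsplitL : ∑ j ∈ range (2 * m), (g (j + (i + 1)) - c) ^ 2 =
      ∑ j ∈ range m, (g (j + (i + 1)) - c) ^ 2 + ∑ j ∈ range m, (g (j + m + (i + 1)) - c) ^ 2 := by
    rw [two_mul, sum_range_add]
    congr 1
    refine sum_congr rfl fun j _ => ?_
    rw [add_comm m j]
  have hsplitR : ∑ j ∈ range (2 * m), (g (j + (i + 1) + 1) - g (j + (i + 1))) ^ 2 =
      (∑ j ∈ range (m - 1), (g (j + 1 + (i + 1)) - g (j + (i + 1))) ^ 2 +
        (g (i + 1 + m) - g (i + m)) ^ 2) +
      (∑ j ∈ range (m - 1), (g (j + 1 + m + (i + 1)) - g (j + m + (i + 1))) ^ 2 +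
        (g (i + 1) - g i) ^ 2) := by
    rw [two_mul, sum_range_add]
    have em : m = (m - 1) + 1 := by omega
    have h1 : ∑ j ∈ range m, (g (j + (i + 1) + 1) - g (j + (i + 1))) ^ 2 =
        ∑ j ∈ range (m - 1), (g (j + 1 + (i + 1)) - g (j + (i + 1))) ^ 2 +
        (g (i + 1 + m) - g (i + m)) ^ 2 := by
      conv_lhs => rw [em, sum_range_succ]
      have a1 : m - 1 + (i + 1) + 1 = i + 1 + m := by omega
      have a2 : m - 1 + (i + 1) = i + m := by omega
      rw [a1, a2]
      congr 1
      refine sum_congr rfl fun j _ => ?_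
      have : j + (i + 1) + 1 = j + 1 + (i + 1) := by ring
      rw [this]
    have h2 : ∑ j ∈ range m, (g (m + j + (i + 1) + 1) - g (m + j + (i + 1))) ^ 2 =
        ∑ j ∈ range (m - 1), (g (j + 1 + m + (i + 1)) - g (j + m + (i + 1))) ^ 2 +
        (g (i + 1) - g i) ^ 2 := by
      conv_lhs => rw [em, sum_range_succ]
      have a1 : m - 1 + 1 + (m - 1) + (i + 1) + 1 = i + 1 + 2 * m := by omega
      have a2 : m - 1 + 1 + (m - 1) + (i + 1) = i + 2 * m := by omega
      rw [a1, a2, hg, hg]
      congr 1
      refine sum_congr rfl fun j _ => ?_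
      have b1 : m - 1 + 1 + j + (i + 1) + 1 = j + 1 + m + (i + 1) := by omega
      have b2 : m - 1 + 1 + j + (i + 1) = j + m + (i + 1) := by omega
      rw [b1, b2]
    rw [h1, h2]
  rw [hsplitL, hsplitR]
  have e1 : m - 1 + (i + 1) = i + m := by omega
  have e2 : m - 1 + m + (i + 1) = i + 2 * m := by omega
  have e3 : m + (i + 1) = i + 1 + m := by omega
  simp only [e1, e2, hg, zero_add, sub_sub_sub_cancel_right] at hp1 hp2
  rw [e3] at hp2
  nlinarith

end path

section main

variable {V : Type*} [Fintype V] [DecidableEq V] (G : SimpleGraph V) [DecidableRel G.Adj]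

/-- the main inequality -/
theorem poincare (hG : G.Connected) (hm : 1 ≤ G.edgeFinset.card) (f : V → ℝ) :
    ∃ c : ℝ, (1 - Real.cos (Real.pi / (G.edgeFinset.card + 1))) *
      ∑ v, (G.degree v : ℝ) * (f v - c) ^ 2 ≤
      (1 / 2 : ℝ) * ∑ u, ∑ v, (if G.Adj u v then (f u - f v) ^ 2 else 0) := by
  obtain ⟨r⟩ := hG.nonempty
  obtain ⟨p, h1, h2⟩ := exists_tour G hG r
  have hlen := length_tour G p h1 h2
  set m := G.edgeFinset.card with hmdef
  set g : ℕ → ℝ := fun j => f (p.getVert (j % (2 * m))) with hg
  have hper : ∀ j, g (j + 2 * m) = g j := by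
    intro j
    simp only [hg, Nat.add_mod_right]
  have hgv : ∀ j, j ≤ 2 * m → g j = f (p.getVert j) := by
    intro j hj
    rcases hj.lt_or_eq with h | h
    · simp only [hg, Nat.mod_eq_of_lt h]
    · simp only [hg]
      rw [h, Nat.mod_self, Walk.getVert_zero, ← hlen, Walk.getVert_length]
  obtain ⟨c, hc⟩ := cycle_ineq m hm g hper
  refine ⟨c, ?_⟩
  have hA : ∑ j ∈ range (2 * m), (g j - c) ^ 2 = ∑ v, (G.degree v : ℝ) * (f v - c) ^ 2 := by
    rw [← sum_darts_deg G (fun v => (f v - c) ^ 2),
      sum_darts_tour G p h1 h2 (fun u _ => (f u - c) ^ 2), hlen]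
    refine sum_congr rfl fun j hj => ?_
    rw [hgv j (mem_range.1 hj).le]
  have hB : ∑ j ∈ range (2 * m), (g (j + 1) - g j) ^ 2 =
      ∑ u, ∑ v, (if G.Adj u v then (f u - f v) ^ 2 else 0) := by
    rw [← sum_darts_adj G (fun u v => (f u - f v) ^ 2),
      sum_darts_tour G p h1 h2 (fun u v => (f u - f v) ^ 2), hlen]
    refine sum_congr rfl fun j hj => ?_
    have := mem_range.1 hj
    rw [hgv j this.le, hgv (j + 1) this]
    ring
  rw [hA, hB] at hc
  linarith

end main

end Pool.Agent.W132.Relax
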